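import Pool.Agent.Y594.NT3.AuxA

/-!
# Upper bounds with an additive constant, lower bounds off a hypersurface (helper594)
-/

set_option autoImplicit false

namespace Pool.Agent.Y594.NT3

open Finset Pool.Agent.H785R2.ABC Pool.Agent.Y594.NT

theorem log_rad_nonneg (a : ℕ) : 0 ≤ Real.log (rad a : ℝ) :=
  Real.log_nonneg (by exact_mod_cast rad_pos' a)

/-- upper bound for the number of exceptional tuples, with an additive constant -/
theorem up_const (m : ℕ) (hm : 1 ≤ m) (A : ℝ) (hA : 1 ≤ A) : ∃ ν : ℝ, 0 < ν ∧ ∀ c : ℝ,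
    ∀ δ : ℝ, 0 < δ → ∃ C : ℝ, 0 < C ∧ ∀ X : ℝ, 1 ≤ X → ∀ M : ℝ, 1 / ((m : ℝ) + 2) ≤ M → M ≤ 1 →
    ∀ E : Finset (Fin (m + 2) → ℤ),
    (∀ z ∈ E, Adm A X z ∧ M * Real.log (rad (∏ i, (z i).natAbs) : ℝ) + c ≤ ht z) →
    (E.card : ℝ) ≤ C * (X ^ (1 - M + δ) + X ^ (((m : ℝ) + 1) / (m + 2) - ν)) := by
  classical
  obtain ⟨ν, hν, hthr⟩ := thr_upper m hm A hA
  refine ⟨ν, hν, fun c δ hδ => ?_⟩
  have hm2 : (0 : ℝ) < (m : ℝ) + 2 := by positivity
  obtain ⟨d, hd⟩ : ∃ d : ℝ, d = min (δ / 2) (1 / (2 * ((m : ℝ) + 2))) := ⟨_, rfl⟩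
  have hd0 : 0 < d := by rw [hd]; exact lt_min (by linarith) (by positivity)
  have hd1 : d ≤ δ / 2 := by rw [hd]; exact min_le_left _ _
  have hd2 : d ≤ 1 / (2 * ((m : ℝ) + 2)) := by rw [hd]; exact min_le_right _ _
  have hd3 : d < 1 / ((m : ℝ) + 2) := by
    refine lt_of_le_of_lt hd2 ?_
    exact one_div_lt_one_div_of_lt hm2 (by linarith)
  obtain ⟨C₁, hC₁, h1⟩ := hthr (δ / 2) (by linarith)
  obtain ⟨C₂, hC₂, h2⟩ := few_points m A hA (Real.exp (|c| / d)) (Real.exp_pos _).le (δ / 2)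
    (by linarith)
  refine ⟨C₁ + C₂, by positivity, fun X hX M hM hM1 E hE => ?_⟩
  have hX0 : 0 < X := by linarith
  set E₁ := E.filter fun z => (rad (∏ i, (z i).natAbs) : ℝ) ≤ Real.exp (|c| / d) with hE₁
  set E₂ := E.filter fun z => ¬ (rad (∏ i, (z i).natAbs) : ℝ) ≤ Real.exp (|c| / d) with hE₂
  have hcard : E.card = E₁.card + E₂.card := (Finset.card_filter_add_card_filter_not _).symm
  have b1 := h2 X hX E₁ (fun z hz => by
    obtain ⟨z1, z2⟩ := mem_filter.1 hz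
    exact ⟨(hE z z1).1, z2⟩)
  have b2 := h1 X hX (M - d) (by linarith) (by linarith) E₂ (fun z hz => by
    obtain ⟨z1, z2⟩ := mem_filter.1 hz
    obtain ⟨g1, g2⟩ := hE z z1
    refine ⟨g1, ?_⟩
    push Not at z2
    have hr0 : (0 : ℝ) < (rad (∏ i, (z i).natAbs) : ℝ) := by
      exact_mod_cast rad_pos' _
    have h3 : |c| / d < Real.log (rad (∏ i, (z i).natAbs) : ℝ) :=
      (Real.lt_log_iff_exp_lt hr0).2 z2
    have h4 : |c| ≤ d * Real.log (rad (∏ i, (z i).natAbs) : ℝ) := by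
      rw [div_lt_iff₀ hd0] at h3
      linarith
    have h5 : (M - d) * Real.log (rad (∏ i, (z i).natAbs) : ℝ) ≤ ht z := by
      have := neg_abs_le c
      nlinarith
    obtain ⟨i, -, hi⟩ := exists_mem_eq_sup univ (univ_nonempty (α := Fin (m + 2)))
      (fun i => (z i).natAbs)
    refine ⟨i, ?_⟩
    have h6 : ht z = Real.log ((z i).natAbs : ℝ) := by
      unfold ht
      rw [hi]
    have h7 : (0 : ℝ) < ((z i).natAbs : ℝ) := by
      exact_mod_cast Int.natAbs_pos.2 (g1.2.2.1 i)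
    rw [h6] at h5
    rw [← Real.log_le_log_iff (Real.rpow_pos_of_pos hr0 _) h7, Real.log_rpow hr0]
    exact h5)
  have c1 : X ^ (δ / 2) ≤ X ^ (1 - M + δ) :=
    Real.rpow_le_rpow_of_exponent_le hX (by linarith)
  have c2 : X ^ (1 - (M - d) + δ / 2) ≤ X ^ (1 - M + δ) :=
    Real.rpow_le_rpow_of_exponent_le hX (by linarith)
  have p1 : 0 ≤ X ^ (((m : ℝ) + 1) / (m + 2) - ν) := by positivity
  rw [hcard]
  push_cast
  have d1 : (E₁.card : ℝ) ≤ C₂ * X ^ (1 - M + δ) :=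
    b1.trans (mul_le_mul_of_nonneg_left c1 hC₂.le)
  have d2 : (E₂.card : ℝ) ≤ C₁ * (X ^ (1 - M + δ) + X ^ (((m : ℝ) + 1) / (m + 2) - ν)) :=
    b2.trans (mul_le_mul_of_nonneg_left (by linarith) hC₁.le)
  nlinarith [mul_nonneg hC₂.le p1]

/-- consequences: power saving above the threshold and the upper bound near it -/
theorem up_all (m : ℕ) (hm : 1 ≤ m) (A : ℝ) (hA : 1 ≤ A) :
    (∀ c M : ℝ, 1 / ((m : ℝ) + 2) < M → ∃ ν : ℝ, 0 < ν ∧ ∃ C : ℝ, 0 ≤ C ∧ ∀ X : ℝ, 1 ≤ X →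
      ∀ E : Finset (Fin (m + 2) → ℤ),
      (∀ z ∈ E, Adm A X z ∧ M * Real.log (rad (∏ i, (z i).natAbs) : ℝ) + c ≤ ht z) →
      (E.card : ℝ) ≤ C * X ^ (((m : ℝ) + 1) / (m + 2) - ν)) ∧
    ∃ ν : ℝ, 0 < ν ∧ ∀ c δ : ℝ, 0 < δ → ∃ X₀ : ℝ, 1 ≤ X₀ ∧ ∀ X : ℝ, X₀ ≤ X →
      ∀ M : ℝ, 1 / ((m : ℝ) + 2) ≤ M → M ≤ 1 / ((m : ℝ) + 2) + ν → M ≤ 1 →
      ∀ E : Finset (Fin (m + 2) → ℤ),
      (∀ z ∈ E, Adm A X z ∧ M * Real.log (rad (∏ i, (z i).natAbs) : ℝ) + c ≤ ht z) →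
      (E.card : ℝ) ≤ X ^ (1 - M + δ) := by
  have hm1 : (1 : ℝ) ≤ m := by exact_mod_cast hm
  have hN0 : (0 : ℝ) < (m : ℝ) + 2 := by positivity
  have e3 : ((m : ℝ) + 1) / (m + 2) = 1 - 1 / ((m : ℝ) + 2) := by field_simp; ring
  obtain ⟨ν, hν, hup⟩ := up_const m hm A hA
  constructor
  · intro c M hM
    obtain ⟨M', hM'⟩ : ∃ M' : ℝ, M' = min M 1 := ⟨_, rfl⟩
    have hM'1 : M' ≤ 1 := by rw [hM']; exact min_le_right _ _
    have hM'M : M' ≤ M := by rw [hM']; exact min_le_left _ _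
    have hM'n : 1 / ((m : ℝ) + 2) < M' := by
      rw [hM']
      apply lt_min hM
      rw [div_lt_one hN0]; linarith
    obtain ⟨C, hC, h⟩ := hup c ((M' - 1 / ((m : ℝ) + 2)) / 2) (by linarith)
    refine ⟨min ν ((M' - 1 / ((m : ℝ) + 2)) / 2), lt_min hν (by linarith), 2 * C, by positivity,
      fun X hX E hE => ?_⟩
    refine (h X hX M' hM'n.le hM'1 E fun z hz => ⟨(hE z hz).1, ?_⟩).trans ?_
    · have h1 := (hE z hz).2
      have h2 := log_rad_nonneg (∏ i, (z i).natAbs)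
      nlinarith
    have h2 : X ^ (1 - M' + (M' - 1 / ((m : ℝ) + 2)) / 2) ≤
        X ^ (((m : ℝ) + 1) / (m + 2) - min ν ((M' - 1 / ((m : ℝ) + 2)) / 2)) := by
      apply Real.rpow_le_rpow_of_exponent_le hX
      rw [e3]
      linarith [min_le_right ν ((M' - 1 / ((m : ℝ) + 2)) / 2)]
    have h3 : X ^ (((m : ℝ) + 1) / (m + 2) - ν) ≤
        X ^ (((m : ℝ) + 1) / (m + 2) - min ν ((M' - 1 / ((m : ℝ) + 2)) / 2)) := by
      apply Real.rpow_le_rpow_of_exponent_le hX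
      linarith [min_le_left ν ((M' - 1 / ((m : ℝ) + 2)) / 2)]
    calc C * (X ^ (1 - M' + (M' - 1 / ((m : ℝ) + 2)) / 2) + X ^ (((m : ℝ) + 1) / (m + 2) - ν))
        ≤ C * (X ^ (((m : ℝ) + 1) / (m + 2) - min ν ((M' - 1 / ((m : ℝ) + 2)) / 2)) +
            X ^ (((m : ℝ) + 1) / (m + 2) - min ν ((M' - 1 / ((m : ℝ) + 2)) / 2))) :=
          mul_le_mul_of_nonneg_left (add_le_add h2 h3) hC.le
      _ = _ := by ring
  · refine ⟨ν, hν, fun c δ hδ => ?_⟩
    obtain ⟨C, hC, h⟩ := hup c (δ / 2) (by linarith)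
    refine ⟨max 1 ((2 * C) ^ (2 / δ)), le_max_left _ _, fun X hX M hM hMν hM1 E hE => ?_⟩
    have hX1 : 1 ≤ X := (le_max_left _ _).trans hX
    have hX0 : 0 < X := by linarith
    refine (h X hX1 M hM hM1 E hE).trans ?_
    have h1 : X ^ (((m : ℝ) + 1) / (m + 2) - ν) ≤ X ^ (1 - M + δ / 2) := by
      apply Real.rpow_le_rpow_of_exponent_le hX1
      rw [e3]
      linarith
    have h2 : 2 * C ≤ X ^ (δ / 2) := by
      have h3 : (2 * C) ^ (2 / δ) ≤ X := (le_max_right _ _).trans hX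
      calc 2 * C = ((2 * C) ^ (2 / δ)) ^ (δ / 2) := by
            rw [← Real.rpow_mul (by positivity)]
            have : 2 / δ * (δ / 2) = 1 := by field_simp
            rw [this, Real.rpow_one]
        _ ≤ X ^ (δ / 2) := Real.rpow_le_rpow (by positivity) h3 (by positivity)
    calc C * (X ^ (1 - M + δ / 2) + X ^ (((m : ℝ) + 1) / (m + 2) - ν))
        ≤ C * (X ^ (1 - M + δ / 2) + X ^ (1 - M + δ / 2)) :=
          mul_le_mul_of_nonneg_left (by linarith) hC.le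
      _ = 2 * C * X ^ (1 - M + δ / 2) := by ring
      _ ≤ X ^ (δ / 2) * X ^ (1 - M + δ / 2) := mul_le_mul_of_nonneg_right h2 (by positivity)
      _ = X ^ (1 - M + δ) := by
          rw [← Real.rpow_add hX0]
          congr 1
          ring

/-- the radical of the product divides the product of the radicals -/
theorem rad_prod_le {n : ℕ} (z : Fin n → ℤ) (hz : ∀ i, z i ≠ 0) :
    (rad (∏ i, (z i).natAbs) : ℝ) ≤ ∏ i, (rad (z i).natAbs : ℝ) := by
  have h3 : rad (∏ i, (z i).natAbs) ∣ ∏ i, rad (z i).natAbs := by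
    apply rad_dvd_of
    intro p hp hpd
    obtain ⟨j, -, hj⟩ := (Nat.Prime.prime hp).exists_mem_finset_dvd hpd
    exact (prime_dvd_rad (Int.natAbs_ne_zero.2 (hz j)) hp hj).trans
      (Finset.dvd_prod_of_mem _ (mem_univ j))
  have h4 := Nat.le_of_dvd (Finset.prod_pos fun j _ => rad_pos' _) h3
  exact_mod_cast h4

/-- lower bound for the number of exceptional tuples off a hypersurface -/
theorem low_off (m : ℕ) (hm : 1 ≤ m) (G : MvPolynomial (Fin (m + 1)) ℚ) (hG : G ≠ 0)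
    (c δ g : ℝ) (hδ : 0 < δ) (hg : 0 < g)
    (hg2 : 1 / ((m : ℝ) + 2) + 2 * g ≤ 1 / ((m : ℝ) + 1)) :
    ∃ X₀ : ℝ, 1 ≤ X₀ ∧ ∀ X : ℝ, X₀ ≤ X →
    ∀ M : ℝ, (1 : ℝ) / (m + 2) ≤ M → M ≤ 1 / ((m : ℝ) + 2) + g →
    ∃ T : Finset (Fin (m + 2) → ℤ),
      (∀ z ∈ T, univ.gcd z = 1 ∧ ∑ i, z i = 0 ∧ (∀ j : Fin (m + 1), 0 < z j.castSucc) ∧
        ∏ i, (rad (z i).natAbs : ℝ) ≤ X ∧ ht z ≤ (1 / ((m : ℝ) + 2) + 2 * g) * Real.log X ∧
        M * Real.log (rad (∏ i, (z i).natAbs) : ℝ) + c ≤ ht z ∧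
        MvPolynomial.eval (fun j : Fin (m + 1) => (z j.castSucc : ℚ)) G ≠ 0) ∧
      X ^ (1 - M - δ) ≤ (T.card : ℝ) := by
  obtain ⟨d, hd⟩ : ∃ d : ℝ, d = min (δ / 2) (g / 2) := ⟨_, rfl⟩
  have hd0 : 0 < d := by rw [hd]; exact lt_min (by linarith) (by linarith)
  have hd1 : d ≤ δ / 2 := by rw [hd]; exact min_le_left _ _
  have hd2 : d ≤ g / 2 := by rw [hd]; exact min_le_right _ _
  obtain ⟨X₁, hX₁, hlow⟩ := lowg m hm G hG d hd0
  refine ⟨max X₁ (Real.exp (|c| / d)), le_trans hX₁ (le_max_left _ _), fun X hX M hM1 hM2 => ?_⟩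
  have hXX₁ : X₁ ≤ X := (le_max_left _ _).trans hX
  have hX1 : 1 ≤ X := hX₁.trans hXX₁
  have hX0 : 0 < X := by linarith
  have hXe : Real.exp (|c| / d) ≤ X := (le_max_right _ _).trans hX
  have hL : |c| ≤ d * Real.log X := by
    have h1 : |c| / d ≤ Real.log X := (Real.le_log_iff_exp_le hX0).2 hXe
    rw [div_le_iff₀ hd0] at h1
    linarith
  have hL0 : 0 ≤ Real.log X := Real.log_nonneg hX1
  have hM0 : 0 < M := lt_of_lt_of_le (by positivity) hM1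
  obtain ⟨T, hT, hcard⟩ := hlow X hXX₁ (M + d) (by linarith) (by linarith)
  refine ⟨T, fun z hz => ?_, ?_⟩
  · obtain ⟨g1, g2, g3, g4, ⟨i, g5⟩, g6, g7⟩ := hT z hz
    have hne : ∀ i, z i ≠ 0 := by
      intro i
      refine Fin.lastCases ?_ (fun j => (g3 j).ne') i
      rw [Fin.sum_univ_castSucc] at g2
      have : 0 < ∑ j : Fin (m + 1), z j.castSucc :=
        sum_pos (fun j _ => g3 j) univ_nonempty
      omega
    have hsup1 : (1 : ℝ) ≤ ((univ.sup fun j => (z j).natAbs : ℕ) : ℝ) := by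
      exact_mod_cast sup_pos g1
    refine ⟨g1, g2, g3, g4, ?_, ?_, g7⟩
    · have h1 : ((univ.sup fun j => (z j).natAbs : ℕ) : ℝ) ≤ X ^ (M + d + d) := by
        obtain ⟨i', -, hi'⟩ := exists_mem_eq_sup univ (univ_nonempty (α := Fin (m + 2)))
          (fun i => (z i).natAbs)
        rw [hi']
        exact g6 i'
      have h2 : ht z ≤ (M + d + d) * Real.log X := by
        unfold ht
        rw [← Real.log_rpow hX0]
        exact Real.log_le_log (by linarith) h1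
      exact h2.trans (mul_le_mul_of_nonneg_right (by linarith) hL0)
    · have h2 : (rad (∏ i, (z i).natAbs) : ℝ) ≤ X := (rad_prod_le z hne).trans g4
      have h3 : Real.log (rad (∏ i, (z i).natAbs) : ℝ) ≤ Real.log X :=
        Real.log_le_log (by exact_mod_cast rad_pos' _) h2
      have h4 : (M + d) * Real.log X ≤ ht z := by
        unfold ht
        rw [← Real.log_rpow hX0]
        apply Real.log_le_log (by positivity)
        refine g5.trans ?_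
        exact_mod_cast le_sup (f := fun i => (z i).natAbs) (mem_univ i)
      have h5 := le_abs_self c
      nlinarith
  · refine le_trans ?_ hcard
    apply Real.rpow_le_rpow_of_exponent_le hX1
    linarith

end Pool.Agent.Y594.NT3
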