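import Mathlib
import Pool.Agent.Y500.NT2.Comb

/-! Tuples with sum zero and small radicals off a hypersurface: the construction (helper594,
adapted from the file of helper500). -/

set_option autoImplicit false

namespace Pool.Agent.Y594.NT3

open Finset Pool.Agent.H785R2.ABC Pool.Agent.Y500.NT2

/-- the tuples of the construction, with the box in which they lie -/
theorem combB (k j Y N K : ℕ) (hY : 1 ≤ Y)
    (hK : ∀ y ∈ Ico Y (2 * Y), K ≤ ((Icc 1 N).filter fun p => p.Prime ∧ ¬ p ∣ 2 * y).card) :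
    ∃ T : Finset (Fin (k + 3) → ℤ),
      (∀ z ∈ T, univ.gcd z = 1 ∧ ∑ i, z i = 0 ∧ (∀ j : Fin (k + 2), 0 < z j.castSucc) ∧
        ∏ i, rad (z i).natAbs ≤ (4 * Y) * N ^ (k + 1) * (2 ^ j * (2 * Y) + (k + 1) * N) ∧
        (∃ i, 2 ^ j * Y ≤ (z i).natAbs) ∧
        (∀ i, (z i).natAbs ≤ 2 ^ j * (2 * Y) + (k + 1) * N) ∧
        (∃ y ∈ Ico Y (2 * Y), z (0 : Fin (k + 2)).castSucc = ((2 ^ j * y : ℕ) : ℤ)) ∧
        ∀ i : Fin (k + 1), ∃ w ∈ Icc 1 N, z i.succ.castSucc = ((w : ℕ) : ℤ)) ∧
      Y * K * N ^ k ≤ T.card := by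
  classical
  set S : Finset ((Σ _ : ℕ, ℕ) × (Fin k → ℕ)) :=
    ((Ico Y (2 * Y)).sigma fun y => (Icc 1 N).filter fun p => p.Prime ∧ ¬ p ∣ 2 * y) ×ˢ
      (Fintype.piFinset fun _ : Fin k => Icc 1 N) with hS
  set Φ : ((Σ _ : ℕ, ℕ) × (Fin k → ℕ)) → (Fin (k + 3) → ℤ) :=
    fun t => gg k (ff k j t.1.1 t.1.2 t.2) with hΦ
  have hinj : Function.Injective Φ := by
    rintro ⟨⟨y, p⟩, w⟩ ⟨⟨y', p'⟩, w'⟩ h
    obtain ⟨h1, h2, h3⟩ := ff_inj k j (gg_inj k h)
    dsimp at h1 h2 h3
    subst h1 h2 h3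
    rfl
  refine ⟨S.image Φ, ?_, ?_⟩
  · intro z hz
    obtain ⟨⟨⟨y, p⟩, w⟩, ht, rfl⟩ := Finset.mem_image.1 hz
    rw [hS, Finset.mem_product, Finset.mem_sigma, Fintype.mem_piFinset] at ht
    obtain ⟨⟨hy, hp⟩, hw⟩ := ht
    dsimp only at hy hp hw
    have hyI := hy
    rw [Finset.mem_Ico] at hy
    rw [Finset.mem_filter, Finset.mem_Icc] at hp
    obtain ⟨⟨hp1, hpN⟩, hpp, hpy⟩ := hp
    have hw' : ∀ i, 1 ≤ w i ∧ w i ≤ N := fun i => Finset.mem_Icc.1 (hw i)
    set f := ff k j y p w with hf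
    have f0 : f 0 = 2 ^ j * y := rfl
    have f1 : f 1 = p := rfl
    have fs : ∀ i : Fin k, f i.succ.succ = w i := fun i => rfl
    have hpos : ∀ i, 1 ≤ f i := by
      intro i
      refine Fin.cases ?_ (fun i => ?_) i
      · rw [f0]; exact Nat.mul_pos (by positivity) (by omega)
      · refine Fin.cases ?_ (fun i => ?_) i
        · exact hp1
        · rw [fs]; exact (hw' i).1
    have hsum : ∑ i, f i = 2 ^ j * y + (p + ∑ i : Fin k, w i) := by
      rw [Fin.sum_univ_succ, Fin.sum_univ_succ]; rfl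
    have hwsum : ∑ i : Fin k, w i ≤ k * N := by
      calc ∑ i : Fin k, w i ≤ ∑ _i : Fin k, N := Finset.sum_le_sum fun i _ => (hw' i).2
        _ = k * N := by simp
    have hb1 : 2 ^ j * y ≤ 2 ^ j * (2 * Y) := Nat.mul_le_mul_left _ (by omega)
    have hsumle : ∑ i, f i ≤ 2 ^ j * (2 * Y) + (k + 1) * N := by
      rw [hsum]
      have : (k + 1) * N = N + k * N := by ring
      omega
    have hgg : Φ ⟨⟨y, p⟩, w⟩ = gg k f := rfl
    rw [hgg]
    refine ⟨?_, ?_, ?_, ?_, ?_, ?_, ?_, ?_⟩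
    · -- gcd
      set d := univ.gcd (gg k f) with hd
      have d0 : d ∣ ((2 ^ j * y : ℕ) : ℤ) := by
        have := Finset.gcd_dvd (f := gg k f) (Finset.mem_univ ((0 : Fin (k + 2)).castSucc))
        rw [gg_cs, f0] at this
        exact this
      have d1 : d ∣ ((p : ℕ) : ℤ) := by
        have := Finset.gcd_dvd (f := gg k f) (Finset.mem_univ ((1 : Fin (k + 2)).castSucc))
        rw [gg_cs, f1] at this
        exact this
      have hcop : Nat.Coprime (2 ^ j * y) p := by
        refine Nat.Coprime.symm ((Nat.Prime.coprime_iff_not_dvd hpp).2 fun h => hpy ?_)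
        rcases (Nat.Prime.dvd_mul hpp).1 h with h | h
        · exact Dvd.dvd.mul_right (hpp.dvd_of_dvd_pow h) y
        · exact Dvd.dvd.mul_left h 2
      have hu : IsUnit d := by
        have h1 : IsCoprime ((2 ^ j * y : ℕ) : ℤ) ((p : ℕ) : ℤ) := Nat.isCoprime_iff_coprime.2 hcop
        exact h1.isUnit_of_dvd' d0 d1
      have h2 : normalize d = d := Finset.normalize_gcd
      rw [← h2]
      exact normalize_eq_one.2 hu
    · rw [Fin.sum_univ_castSucc]
      simp only [gg_cs]
      rw [show Fin.last (k + 2) = Fin.last (k + 2) from rfl, gg_last]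
      push_cast
      ring
    · intro i
      rw [gg_cs]
      exact_mod_cast hpos i
    · rw [Fin.prod_univ_castSucc]
      simp only [gg_cs]
      rw [gg_last, Int.natAbs_neg, Int.natAbs_natCast]
      simp only [Int.natAbs_natCast]
      have h1 : ∏ i, rad (f i) ≤ (4 * Y) * N ^ (k + 1) := by
        rw [Fin.prod_univ_succ, Fin.prod_univ_succ]
        have e0 : rad (f 0) ≤ 4 * Y := by
          rw [f0]
          exact (rad_two_pow j y (by omega)).trans (by omega)
        have e1 : rad (f (Fin.succ 0)) ≤ N := (rad_le hp1).trans hpN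
        have e2 : ∏ i : Fin k, rad (f i.succ.succ) ≤ N ^ k := by
          calc ∏ i : Fin k, rad (f i.succ.succ) ≤ ∏ _i : Fin k, N :=
                Finset.prod_le_prod' fun i _ => (rad_le (hw' i).1).trans (hw' i).2
            _ = N ^ k := by simp
        calc rad (f 0) * (rad (f (Fin.succ 0)) * ∏ i : Fin k, rad (f i.succ.succ)) ≤
              (4 * Y) * (N * N ^ k) := Nat.mul_le_mul e0 (Nat.mul_le_mul e1 e2)
          _ = _ := by ring
      refine Nat.mul_le_mul h1 ?_
      refine (rad_le ?_).trans hsumle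
      exact (hpos 0).trans (Finset.single_le_sum (fun i _ => Nat.zero_le _) (Finset.mem_univ 0))
    · refine ⟨(0 : Fin (k + 2)).castSucc, ?_⟩
      rw [gg_cs, Int.natAbs_natCast, f0]
      exact Nat.mul_le_mul_left _ hy.1
    · intro i
      refine Fin.lastCases ?_ (fun i => ?_) i
      · rw [gg_last, Int.natAbs_neg, Int.natAbs_natCast]
        exact hsumle
      · rw [gg_cs, Int.natAbs_natCast]
        exact (Finset.single_le_sum (f := f) (fun i _ => Nat.zero_le _)
          (Finset.mem_univ i)).trans hsumle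
    · exact ⟨y, hyI, by rw [gg_cs, f0]⟩
    · intro i
      refine Fin.cases ?_ (fun i => ?_) i
      · exact ⟨p, Finset.mem_Icc.2 ⟨hp1, hpN⟩, by rw [gg_cs]; rfl⟩
      · exact ⟨w i, Finset.mem_Icc.2 (hw' i), by rw [gg_cs, fs]⟩
  · rw [Finset.card_image_of_injective _ hinj, hS, Finset.card_product, Finset.card_sigma]
    have h1 : Y * K ≤ ∑ y ∈ Ico Y (2 * Y),
        ((Icc 1 N).filter fun p => p.Prime ∧ ¬ p ∣ 2 * y).card := by
      calc Y * K = ∑ _y ∈ Ico Y (2 * Y), K := by
            rw [Finset.sum_const, Nat.card_Ico, smul_eq_mul]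
            congr 1; omega
        _ ≤ _ := Finset.sum_le_sum hK
    have h2 : (Fintype.piFinset fun _ : Fin k => Icc 1 N).card = N ^ k := by
      rw [Fintype.card_piFinset]; simp
    rw [h2]
    exact Nat.mul_le_mul_right _ h1

/-- the number of zeros of a polynomial in the box of the construction -/
theorem zeros (k j Y N : ℕ) (hY : 1 ≤ Y) (hN : 1 ≤ N) (G : MvPolynomial (Fin (k + 2)) ℚ)
    (hG : G ≠ 0) (T : Finset (Fin (k + 3) → ℤ))
    (hT : ∀ z ∈ T, ∑ i, z i = 0 ∧
      MvPolynomial.eval (fun j : Fin (k + 2) => (z j.castSucc : ℚ)) G = 0 ∧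
      (∃ y ∈ Ico Y (2 * Y), z (0 : Fin (k + 2)).castSucc = ((2 ^ j * y : ℕ) : ℤ)) ∧
        ∀ i : Fin (k + 1), ∃ w ∈ Icc 1 N, z i.succ.castSucc = ((w : ℕ) : ℤ)) :
    (T.card : ℝ) ≤ (k + 2) * G.totalDegree * (N ^ (k + 1) + Y * N ^ k) := by
  classical
  set S : Fin (k + 2) → Finset ℚ := Fin.cons ((Ico Y (2 * Y)).image fun y => ((2 ^ j * y : ℕ) : ℚ))
    (fun _ => (Icc 1 N).image fun w : ℕ => (w : ℚ)) with hS
  have c0 : (S 0).card = Y := by
    rw [hS, Fin.cons_zero, Finset.card_image_of_injective, Nat.card_Ico]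
    · omega
    · intro a b hab
      dsimp only at hab
      have : 2 ^ j * a = 2 ^ j * b := by exact_mod_cast hab
      exact Nat.eq_of_mul_eq_mul_left (by positivity) this
  have c1 : ∀ i : Fin (k + 1), (S i.succ).card = N := by
    intro i
    rw [hS, Fin.cons_succ, Finset.card_image_of_injective, Nat.card_Icc]
    · omega
    · intro a b hab
      dsimp only at hab
      exact_mod_cast hab
  have hsz := MvPolynomial.schwartz_zippel_sum_degreeOf hG S
  have hprod : ∏ i, ((S i).card : ℚ≥0) = (Y : ℚ≥0) * (N : ℚ≥0) ^ (k + 1) := by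
    rw [Fin.prod_univ_succ, c0]
    congr 1
    simp only [c1]
    rw [Finset.prod_const, Finset.card_univ, Fintype.card_fin]
  have hY0 : (0 : ℚ≥0) < Y := by exact_mod_cast hY
  have hN0 : (0 : ℚ≥0) < N := by exact_mod_cast hN
  have hsum : ∑ i, (G.degreeOf i / (S i).card : ℚ≥0) ≤
      (k + 2) * G.totalDegree * (1 / Y + 1 / N) := by
    calc ∑ i, (G.degreeOf i / (S i).card : ℚ≥0) ≤
          ∑ _i : Fin (k + 2), (G.totalDegree : ℚ≥0) * (1 / Y + 1 / N) := by
          refine Finset.sum_le_sum fun i _ => ?_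
          have h1 : (G.degreeOf i : ℚ≥0) ≤ G.totalDegree := by
            exact_mod_cast MvPolynomial.degreeOf_le_totalDegree G i
          rw [div_eq_mul_one_div]
          refine mul_le_mul h1 ?_ (by positivity) (by positivity)
          refine Fin.cases ?_ (fun i => ?_) i
          · rw [c0]; exact le_self_add
          · rw [c1]; exact le_add_self
      _ = _ := by
          rw [Finset.sum_const, nsmul_eq_mul, Finset.card_univ, Fintype.card_fin]
          push_cast
          ring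
  have h1 : ((#{x ∈ Fintype.piFinset S | MvPolynomial.eval x G = 0} : ℕ) : ℚ≥0) ≤
      (k + 2) * G.totalDegree * (N ^ (k + 1) + Y * N ^ k) := by
    have h2 := hsz.trans hsum
    rw [hprod, div_le_iff₀ (by positivity)] at h2
    refine h2.trans (le_of_eq ?_)
    rw [pow_succ]
    field_simp
  have h3 : T.card ≤ #{x ∈ Fintype.piFinset S | MvPolynomial.eval x G = 0} := by
    refine Finset.card_le_card_of_injOn (fun z => fun j : Fin (k + 2) => (z j.castSucc : ℚ)) ?_ ?_
    · intro z hz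
      obtain ⟨g1, g2, ⟨y, hy, hy2⟩, g4⟩ := hT z hz
      rw [Finset.mem_coe, Finset.mem_filter, Fintype.mem_piFinset]
      refine ⟨fun i => ?_, g2⟩
      refine Fin.cases ?_ (fun i => ?_) i
      · rw [hS, Fin.cons_zero, Finset.mem_image]
        exact ⟨y, hy, by dsimp only; rw [hy2]; push_cast; rfl⟩
      · obtain ⟨w, hw, hw2⟩ := g4 i
        rw [hS, Fin.cons_succ, Finset.mem_image]
        exact ⟨w, hw, by dsimp only; rw [hw2]; push_cast; rfl⟩
    · intro z hz z' hz' h
      have g1 := (hT z hz).1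
      have g1' := (hT z' hz').1
      have h' : ∀ i : Fin (k + 2), z i.castSucc = z' i.castSucc := fun i => by
        have := congrFun h i
        dsimp only at this
        exact_mod_cast this
      rw [Fin.sum_univ_castSucc] at g1 g1'
      funext i
      refine Fin.lastCases ?_ (fun i => ?_) i
      · have h5 : ∑ i : Fin (k + 2), z i.castSucc = ∑ i : Fin (k + 2), z' i.castSucc :=
          Finset.sum_congr rfl fun i _ => h' i
        linarith
      · exact h' i
  have h4 : ((T.card : ℕ) : ℚ≥0) ≤ (k + 2) * G.totalDegree * (N ^ (k + 1) + Y * N ^ k) :=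
    le_trans (by exact_mod_cast h3) h1
  have h5 : (((T.card : ℕ) : ℚ≥0) : ℝ) ≤
      (((k + 2) * G.totalDegree * (N ^ (k + 1) + Y * N ^ k) : ℚ≥0) : ℝ) := by
    exact_mod_cast h4
  push_cast at h5
  exact_mod_cast h5

end Pool.Agent.Y594.NT3
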