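import Pool.Agent.Y500.NT2.LowN
import Pool.Agent.Y594.NT3.CombG

/-! Many tuples with sum zero, large height and small product of radicals, off a hypersurface
(helper594, adapted from the file of helper500). -/

set_option autoImplicit false

namespace Pool.Agent.Y594.NT3

open Finset Pool.Agent.H785R2.ABC Filter Pool.Agent.Y500.NT2

/-- many tuples of large height with a small product of radicals, off a hypersurface -/
theorem lowg : ∀ m : ℕ, 1 ≤ m → ∀ G : MvPolynomial (Fin (m + 1)) ℚ, G ≠ 0 → ∀ δ : ℝ, 0 < δ →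
    ∃ X₀ : ℝ, 1 ≤ X₀ ∧ ∀ X : ℝ, X₀ ≤ X →
    ∀ M : ℝ, (1 : ℝ) / (m + 2) ≤ M → M + δ ≤ 1 / ((m : ℝ) + 1) →
    ∃ T : Finset (Fin (m + 2) → ℤ),
      (∀ z ∈ T, univ.gcd z = 1 ∧ ∑ i, z i = 0 ∧ (∀ j : Fin (m + 1), 0 < z j.castSucc) ∧
        ∏ i, (rad (z i).natAbs : ℝ) ≤ X ∧
        (∃ i, X ^ M ≤ ((z i).natAbs : ℝ)) ∧ (∀ i, ((z i).natAbs : ℝ) ≤ X ^ (M + δ)) ∧
        MvPolynomial.eval (fun j : Fin (m + 1) => (z j.castSucc : ℚ)) G ≠ 0) ∧
      X ^ (1 - M - δ) ≤ (T.card : ℝ) := by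
  classical
  intro m hm G hG δ hδ
  obtain ⟨k, rfl⟩ : ∃ k, m = k + 1 := ⟨m - 1, by omega⟩
  set s : ℝ := 1 / ((k : ℝ) + 3) with hs
  have hs0 : 0 < s := by positivity
  set C : ℝ := (k : ℝ) + 41 with hC
  have hC41 : 41 ≤ C := by rw [hC]; have : (0 : ℝ) ≤ k := Nat.cast_nonneg k; linarith
  have hCk : (k : ℝ) + 1 ≤ C := by rw [hC]; linarith
  have hlogpow : ∀ a b : ℝ, 0 ≤ a → 0 < b → ∀ᶠ X : ℝ in atTop, a * Real.log X ≤ X ^ b := by
    intro a b ha hb
    have h1 := (isLittleO_log_rpow_atTop hb).bound (by positivity : (0 : ℝ) < 1 / (a + 1))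
    filter_upwards [h1, eventually_ge_atTop 1] with X h2 h3
    rw [Real.norm_of_nonneg (Real.log_nonneg h3),
      Real.norm_of_nonneg (Real.rpow_nonneg (by linarith) _), div_mul_eq_mul_div, one_mul,
      le_div_iff₀ (by positivity)] at h2
    have := Real.log_nonneg h3
    nlinarith
  set D : ℝ := (((k : ℝ) + 1) + 1) * (G.totalDegree : ℝ) with hD
  have hD0 : 0 ≤ D := by positivity
  have hev : ∀ᶠ X : ℝ in atTop, 16 ≤ X ∧ 5 ≤ X ^ δ ∧ 2 * (2 * C) ^ (k + 1) ≤ X ^ (δ / 2) ∧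
      2 * Real.log X ≤ X ^ (δ / 2) ∧ 4 * C ≤ X ^ s ∧ 64 * C * Real.log X ^ 2 ≤ X ^ s ∧
      (8 * D) * Real.log X ≤ X ^ δ ∧ (16 * C * D) * Real.log X ≤ X ^ s := by
    have e1 : ∀ᶠ X : ℝ in atTop, (16 : ℝ) ≤ X := eventually_ge_atTop _
    have e2 : ∀ᶠ X : ℝ in atTop, 5 ≤ X ^ δ := (tendsto_rpow_atTop hδ).eventually_ge_atTop _
    have e3 : ∀ᶠ X : ℝ in atTop, 2 * (2 * C) ^ (k + 1) ≤ X ^ (δ / 2) :=
      (tendsto_rpow_atTop (by positivity)).eventually_ge_atTop _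
    have e4 : ∀ᶠ X : ℝ in atTop, 2 * Real.log X ≤ X ^ (δ / 2) := by
      have h1 := (isLittleO_log_rpow_atTop (by positivity : 0 < δ / 2)).bound
        (by norm_num : (0 : ℝ) < 1 / 2)
      filter_upwards [h1, eventually_ge_atTop 1] with X h2 h3
      rw [Real.norm_of_nonneg (Real.log_nonneg h3),
        Real.norm_of_nonneg (Real.rpow_nonneg (by linarith) _)] at h2
      linarith
    have e5 : ∀ᶠ X : ℝ in atTop, 4 * C ≤ X ^ s := (tendsto_rpow_atTop hs0).eventually_ge_atTop _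
    have e6 : ∀ᶠ X : ℝ in atTop, 64 * C * Real.log X ^ 2 ≤ X ^ s := by
      have h1 := (isLittleO_log_rpow_atTop (by positivity : 0 < s / 2)).bound
        (by positivity : (0 : ℝ) < √(1 / (64 * C)))
      filter_upwards [h1, eventually_ge_atTop 1] with X h2 h3
      have hX0 : (0 : ℝ) ≤ X := by linarith
      rw [Real.norm_of_nonneg (Real.log_nonneg h3),
        Real.norm_of_nonneg (Real.rpow_nonneg hX0 _)] at h2
      have h4 : Real.log X ^ 2 ≤ (√(1 / (64 * C)) * X ^ (s / 2)) ^ 2 :=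
        pow_le_pow_left₀ (Real.log_nonneg h3) h2 2
      rw [mul_pow, Real.sq_sqrt (by positivity), ← Real.rpow_natCast, ← Real.rpow_natCast,
        ← Real.rpow_mul hX0] at h4
      have h5 : s / 2 * ((2 : ℕ) : ℝ) = s := by push_cast; ring
      rw [h5] at h4
      rw [Real.rpow_natCast] at h4
      calc 64 * C * Real.log X ^ 2 ≤ 64 * C * (1 / (64 * C) * X ^ s) := by gcongr
        _ = X ^ s := by field_simp
    filter_upwards [e1, e2, e3, e4, e5, e6, hlogpow (8 * D) δ (by positivity) hδ,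
      hlogpow (16 * C * D) s (by positivity) hs0] with X h1 h2 h3 h4 h5 h6 h7 h8
    exact ⟨h1, h2, h3, h4, h5, h6, h7, h8⟩
  obtain ⟨X₀, hX₀⟩ := eventually_atTop.1 hev
  refine ⟨max X₀ 1, le_max_right _ _, fun X hX M hM1 hM2 => ?_⟩
  obtain ⟨x1, x2, x3, x4, x5, x6, x7, x8⟩ := hX₀ X ((le_max_left _ _).trans hX)
  have hX1 : 1 ≤ X := by linarith
  have hX0 : 0 < X := by linarith
  have hk0 : (0 : ℝ) ≤ k := Nat.cast_nonneg k
  push_cast at hM1 hM2
  have hsM : s ≤ M := by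
    rw [hs]
    have : (k : ℝ) + 1 + 2 = k + 3 := by ring
    rwa [this] at hM1
  have hM2'' : (M + δ) * ((k : ℝ) + 2) ≤ 1 := by
    have : (k : ℝ) + 1 + 1 = k + 2 := by ring
    rw [this, le_div_iff₀ (by positivity)] at hM2
    exact hM2
  have hM2' : M * ((k : ℝ) + 2) ≤ 1 := by nlinarith [mul_nonneg hδ.le (by positivity : 0 ≤ (k : ℝ) + 2)]
  have hM1' : 1 ≤ M * ((k : ℝ) + 3) := by
    rw [hs, div_le_iff₀ (by positivity)] at hsM
    exact hsM
  have hM0 : 0 < M := lt_of_lt_of_le hs0 hsM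
  set H : ℝ := X ^ M with hH
  have hH0 : 0 < H := Real.rpow_pos_of_pos hX0 _
  have hsH : X ^ s ≤ H := Real.rpow_le_rpow_of_exponent_le hX1 hsM
  have hHX : H ≤ X := by
    calc H ≤ X ^ (1 : ℝ) := Real.rpow_le_rpow_of_exponent_le hX1 (by nlinarith)
      _ = X := Real.rpow_one X
  set P : ℝ := X ^ (1 - M * ((k : ℝ) + 2)) with hP
  have hP1 : 1 ≤ P := Real.one_le_rpow hX1 (by linarith)
  have hPδ : X ^ δ ≤ P := Real.rpow_le_rpow_of_exponent_le hX1 (by nlinarith)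
  have hPH : P ≤ H := Real.rpow_le_rpow_of_exponent_le hX1 (by nlinarith)
  have hPHX : P * H ^ (k + 2) = X := by
    rw [hP, hH, ← Real.rpow_natCast (X ^ M), ← Real.rpow_mul hX0.le, ← Real.rpow_add hX0]
    push_cast
    rw [show 1 - M * ((k : ℝ) + 2) + M * ((k : ℝ) + 2) = 1 by ring, Real.rpow_one]
  -- the natural numbers
  set Y : ℕ := ⌈P⌉₊ with hY
  have hPY : P ≤ Y := Nat.le_ceil P
  have hY2P : (Y : ℝ) ≤ 2 * P := by
    have := Nat.ceil_lt_add_one (by linarith : 0 ≤ P)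
    linarith
  have hY1 : 1 ≤ Y := by
    have : (1 : ℝ) ≤ Y := hP1.trans hPY
    exact_mod_cast this
  obtain ⟨j, hj1, hj2⟩ : ∃ j : ℕ, H ≤ 2 ^ j * (Y : ℝ) ∧ 2 ^ j * (Y : ℝ) ≤ 2 * H := by
    have hex : ∃ j : ℕ, H ≤ 2 ^ j * (Y : ℝ) := by
      obtain ⟨j, hj⟩ := pow_unbounded_of_one_lt H (by norm_num : (1 : ℝ) < 2)
      refine ⟨j, hj.le.trans ?_⟩
      have : (1 : ℝ) ≤ Y := by exact_mod_cast hY1
      nlinarith [pow_pos (by norm_num : (0 : ℝ) < 2) j]
    classical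
    refine ⟨Nat.find hex, Nat.find_spec hex, ?_⟩
    rcases Nat.eq_zero_or_pos (Nat.find hex) with h0 | h0
    · rw [h0]; linarith
    · obtain ⟨i, hi⟩ : ∃ i, Nat.find hex = i + 1 := ⟨Nat.find hex - 1, by omega⟩
      have h1 := Nat.find_min hex (m := i) (by omega)
      rw [hi, pow_succ]
      push Not at h1
      linarith
  set N : ℕ := ⌊H / C⌋₊ with hN
  have hC0 : 0 < C := by linarith
  have hNle : (N : ℝ) ≤ H / C := Nat.floor_le (by positivity)
  have h4C : 4 * C ≤ H := x5.trans hsH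
  have hNge : H / (2 * C) ≤ N := by
    have h1 := Nat.lt_floor_add_one (H / C)
    have h2 : 1 ≤ H / (2 * C) := by rw [le_div_iff₀ (by positivity)]; linarith
    have h3 : H / C = H / (2 * C) + H / (2 * C) := by field_simp; ring
    rw [← hN] at h1
    linarith
  have hN2 : 2 ≤ N := by
    have h2 : 2 ≤ H / (2 * C) := by rw [le_div_iff₀ (by positivity)]; linarith
    have : (2 : ℝ) ≤ N := h2.trans hNge
    exact_mod_cast this
  have hCH : H / C ≤ H := div_le_self hH0.le (by linarith)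
  have hNX : (N : ℝ) ≤ X := hNle.trans (hCH.trans hHX)
  have hNlog : 32 * Real.log X ^ 2 ≤ N := by
    refine le_trans ?_ hNge
    rw [le_div_iff₀ (by positivity)]
    calc 32 * Real.log X ^ 2 * (2 * C) = 64 * C * Real.log X ^ 2 := by ring
      _ ≤ X ^ s := x6
      _ ≤ H := hsH
  set K : ℕ := N.primeCounting - Nat.log 2 (4 * Y) with hK
  have hKge : (N : ℝ) ≤ (K : ℝ) * (2 * Real.log X) :=
    many_primes X N Y x1 hN2 hNX hY1 (by linarith) hNlog
  obtain ⟨T, hT1, hT2⟩ := combB k j Y N K hY1 (by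
    intro y hy
    rw [Finset.mem_Ico] at hy
    have h1 := primes_ge N (2 * y) (by omega)
    have h2 : Nat.log 2 (2 * y) ≤ Nat.log 2 (4 * Y) := Nat.log_mono_right (by omega)
    omega)
  have hbig : ((2 ^ j * (2 * Y) + (k + 1) * N : ℕ) : ℝ) ≤ 5 * H := by
    push_cast
    have h1 : ((k : ℝ) + 1) * N ≤ H := by
      calc ((k : ℝ) + 1) * N ≤ C * (H / C) := by gcongr
        _ = H := by field_simp
    nlinarith
  set T₀ := T.filter fun z =>
    MvPolynomial.eval (fun j : Fin (k + 2) => (z j.castSucc : ℚ)) G = 0 with hT₀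
  set T₁ := T.filter fun z =>
    ¬ MvPolynomial.eval (fun j : Fin (k + 2) => (z j.castSucc : ℚ)) G = 0 with hT₁
  have hcard : T.card = T₀.card + T₁.card := (Finset.card_filter_add_card_filter_not _).symm
  have hzero := zeros k j Y N hY1 (by omega) G hG T₀ (by
    intro z hz
    obtain ⟨z1, z2⟩ := mem_filter.1 hz
    obtain ⟨g1, g2, g3, g4, g5, g6, g7, g8⟩ := hT1 z z1
    exact ⟨g2, z2, g7, g8⟩)
  refine ⟨T₁, fun z hz => ?_, ?_⟩
  · obtain ⟨z1, z2⟩ := mem_filter.1 hz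
    obtain ⟨g1, g2, g3, g4, ⟨i, g5⟩, g6, -, -⟩ := hT1 z z1
    refine ⟨g1, g2, g3, ?_, ⟨i, ?_⟩, fun i => ?_, z2⟩
    · have h1 : ((∏ i, rad (z i).natAbs : ℕ) : ℝ) ≤
          (((4 * Y) * N ^ (k + 1) * (2 ^ j * (2 * Y) + (k + 1) * N) : ℕ) : ℝ) := by
        exact_mod_cast g4
      have h2 : ((∏ i, rad (z i).natAbs : ℕ) : ℝ) = ∏ i, (rad (z i).natAbs : ℝ) := by
        push_cast; rfl
      rw [← h2]
      refine h1.trans ?_
      rw [Nat.cast_mul, Nat.cast_mul, Nat.cast_mul, Nat.cast_pow]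
      calc ((4 : ℕ) : ℝ) * (Y : ℝ) * (N : ℝ) ^ (k + 1) *
            ((2 ^ j * (2 * Y) + (k + 1) * N : ℕ) : ℝ) ≤
            4 * (2 * P) * (H / C) ^ (k + 1) * (5 * H) := by
            push_cast at hbig ⊢
            gcongr
        _ = (40 / C ^ (k + 1)) * (P * H ^ (k + 2)) := by
            rw [div_pow]; field_simp; ring
        _ ≤ 1 * (P * H ^ (k + 2)) := by
            gcongr
            rw [div_le_one (by positivity)]
            calc (40 : ℝ) ≤ C := by linarith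
              _ = C ^ 1 := (pow_one C).symm
              _ ≤ C ^ (k + 1) := pow_le_pow_right₀ (by linarith) (by omega)
        _ = X := by rw [one_mul, hPHX]
    · have : ((2 ^ j * Y : ℕ) : ℝ) ≤ ((z i).natAbs : ℝ) := by exact_mod_cast g5
      push_cast at this
      exact hj1.trans this
    · have h1 : ((z i).natAbs : ℝ) ≤ ((2 ^ j * (2 * Y) + (k + 1) * N : ℕ) : ℝ) := by
        exact_mod_cast g6 i
      calc ((z i).natAbs : ℝ) ≤ 5 * H := h1.trans hbig
        _ ≤ X ^ δ * H := by gcongr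
        _ = X ^ (M + δ) := by rw [Real.rpow_add hX0, mul_comm]
  · have hL0 : 0 < Real.log X := Real.log_pos (by linarith : 1 < X)
    have hlog0 : 0 < 2 * Real.log X := by linarith
    have hXd : 0 < X ^ (δ / 2) := Real.rpow_pos_of_pos hX0 _
    have hN0 : (0 : ℝ) < N := by exact_mod_cast (by omega : 0 < N)
    have hY0 : (0 : ℝ) < Y := by exact_mod_cast hY1
    have hKN : (N : ℝ) / (2 * Real.log X) ≤ K := by
      rw [div_le_iff₀ hlog0]
      exact hKge
    have y1 : 8 * D * Real.log X ≤ Y := x7.trans (hPδ.trans hPY)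
    have y2 : 8 * D * Real.log X ≤ N := by
      refine le_trans ?_ hNge
      rw [le_div_iff₀ (by positivity)]
      calc 8 * D * Real.log X * (2 * C) = 16 * C * D * Real.log X := by ring
        _ ≤ X ^ s := x8
        _ ≤ H := hsH
    have hz2 : (T₀.card : ℝ) ≤ (Y : ℝ) * K * N ^ k / 2 := by
      have hDk : ((k : ℝ) + 2) * G.totalDegree = D := by rw [hD]; ring
      rw [hDk] at hzero
      refine hzero.trans ?_
      have a1 : D * (N : ℝ) ^ (k + 1) ≤ (Y : ℝ) * (N / (2 * Real.log X)) * N ^ k / 4 := by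
        have : D ≤ (Y : ℝ) / (8 * Real.log X) := by
          rw [le_div_iff₀ (by positivity)]
          linarith
        calc D * (N : ℝ) ^ (k + 1) ≤ (Y : ℝ) / (8 * Real.log X) * (N : ℝ) ^ (k + 1) := by gcongr
          _ = _ := by rw [pow_succ]; field_simp; ring
      have a2 : D * (Y * (N : ℝ) ^ k) ≤ (Y : ℝ) * (N / (2 * Real.log X)) * N ^ k / 4 := by
        have : D ≤ (N : ℝ) / (8 * Real.log X) := by
          rw [le_div_iff₀ (by positivity)]
          linarith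
        calc D * (Y * (N : ℝ) ^ k) ≤ (N : ℝ) / (8 * Real.log X) * (Y * (N : ℝ) ^ k) := by gcongr
          _ = _ := by field_simp; ring
      calc D * ((N : ℝ) ^ (k + 1) + Y * N ^ k) = D * (N : ℝ) ^ (k + 1) + D * (Y * (N : ℝ) ^ k) := by
            ring
        _ ≤ (Y : ℝ) * (N / (2 * Real.log X)) * N ^ k / 4 +
            (Y : ℝ) * (N / (2 * Real.log X)) * N ^ k / 4 := add_le_add a1 a2
        _ = (Y : ℝ) * (N / (2 * Real.log X)) * N ^ k / 2 := by ring
        _ ≤ (Y : ℝ) * K * N ^ k / 2 := by gcongr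
    have h1 : (Y : ℝ) * K * N ^ k / 2 ≤ (T₁.card : ℝ) := by
      have h0 : ((Y * K * N ^ k : ℕ) : ℝ) ≤ (T.card : ℝ) := by exact_mod_cast hT2
      rw [hcard] at h0
      push_cast at h0
      linarith
    refine le_trans ?_ h1
    have hK1 : (N : ℝ) / X ^ (δ / 2) ≤ K := by
      rw [div_le_iff₀ hXd]
      refine hKge.trans ?_
      gcongr
    have e1 : X ^ (1 - M - δ) = P * H ^ (k + 1) / (X ^ (δ / 2) * X ^ (δ / 2)) := by
      rw [hP, hH, ← Real.rpow_natCast (X ^ M), ← Real.rpow_mul hX0.le, ← Real.rpow_add hX0,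
        ← Real.rpow_add hX0, ← Real.rpow_sub hX0]
      congr 1
      push_cast
      ring
    have h2C : 0 < (2 * C) ^ (k + 1) := by positivity
    rw [e1]
    calc P * H ^ (k + 1) / (X ^ (δ / 2) * X ^ (δ / 2)) ≤
          P * H ^ (k + 1) / (X ^ (δ / 2) * (2 * (2 * C) ^ (k + 1))) := by gcongr
      _ = P * ((H / (2 * C)) ^ (k + 1) / X ^ (δ / 2)) / 2 := by
          rw [div_pow]; field_simp
      _ ≤ Y * ((N : ℝ) ^ (k + 1) / X ^ (δ / 2)) / 2 := by gcongr
      _ = Y * ((N : ℝ) / X ^ (δ / 2)) * N ^ k / 2 := by rw [pow_succ]; ring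
      _ ≤ Y * K * N ^ k / 2 := by gcongr

end Pool.Agent.Y594.NT3
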