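import Pool.Agent.Y594.NT.ThrFin
import Pool.Agent.Y594.NT3.LowG

/-!
# Points with bounded radical, substitution in polynomials, all points off a hypersurface
(helper594)
-/

set_option autoImplicit false

namespace Pool.Agent.Y594.NT3

open Finset Pool.Agent.H785R2.ABC Pool.Agent.Y594.NT

/-- there are few integers with bounded radical -/
theorem few_rad (R : ℝ) (hR : 0 ≤ R) (δ : ℝ) (hδ : 0 < δ) : ∃ C : ℝ, 0 < C ∧ ∀ N : ℕ, 1 ≤ N →
    (((Icc 1 N).filter fun u => (rad u : ℝ) ≤ R).card : ℝ) ≤ C * (N : ℝ) ^ δ := by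
  obtain ⟨C, hC, h⟩ := Pool.Agent.Y349.NT2.usum δ hδ
  refine ⟨(R + 1) * C, by positivity, fun N hN => ?_⟩
  have hN0 : (0 : ℝ) < N := by exact_mod_cast hN
  have h1 := h N
  have h2 : ∀ u ∈ (Icc 1 N).filter (fun u => (rad u : ℝ) ≤ R),
      1 / ((R + 1) * (N : ℝ) ^ δ) ≤ (u : ℝ) ^ (-δ) / (rad u : ℝ) := by
    intro u hu
    obtain ⟨h3, h4⟩ := mem_filter.1 hu
    rw [mem_Icc] at h3
    have hu0 : (0 : ℝ) < u := by exact_mod_cast h3.1
    have huN : (u : ℝ) ≤ N := by exact_mod_cast h3.2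
    have hr0 : (0 : ℝ) < rad u := by exact_mod_cast rad_pos' u
    rw [Real.rpow_neg hu0.le, ← one_div, div_div]
    apply one_div_le_one_div_of_le (by positivity)
    rw [mul_comm]
    exact mul_le_mul (by linarith) (Real.rpow_le_rpow hu0.le huN hδ.le) (by positivity)
      (by positivity)
  have h3 : (((Icc 1 N).filter fun u => (rad u : ℝ) ≤ R).card : ℝ) *
      (1 / ((R + 1) * (N : ℝ) ^ δ)) ≤ C := by
    calc (((Icc 1 N).filter fun u => (rad u : ℝ) ≤ R).card : ℝ) * (1 / ((R + 1) * (N : ℝ) ^ δ))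
        = ∑ _u ∈ (Icc 1 N).filter (fun u => (rad u : ℝ) ≤ R), 1 / ((R + 1) * (N : ℝ) ^ δ) := by
          rw [sum_const, nsmul_eq_mul]
      _ ≤ ∑ u ∈ (Icc 1 N).filter (fun u => (rad u : ℝ) ≤ R), (u : ℝ) ^ (-δ) / (rad u : ℝ) :=
          sum_le_sum h2
      _ ≤ ∑ u ∈ Icc 1 N, (u : ℝ) ^ (-δ) / (rad u : ℝ) :=
          sum_le_sum_of_subset_of_nonneg (filter_subset _ _) fun u _ _ => by positivity
      _ ≤ C := h1
  rw [mul_one_div, div_le_iff₀ (by positivity)] at h3
  linarith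

/-- there are few points with bounded radical -/
theorem few_points (m : ℕ) (A : ℝ) (hA : 1 ≤ A) (R : ℝ) (hR : 0 ≤ R) (δ : ℝ) (hδ : 0 < δ) :
    ∃ C : ℝ, 0 < C ∧ ∀ X : ℝ, 1 ≤ X → ∀ E : Finset (Fin (m + 2) → ℤ),
    (∀ z ∈ E, Adm A X z ∧ (rad (∏ i, (z i).natAbs) : ℝ) ≤ R) → (E.card : ℝ) ≤ C * X ^ δ := by
  classical
  have hA0 : 0 < A := by linarith
  have hm0 : (0 : ℝ) < (m : ℝ) + 2 := by positivity
  obtain ⟨C, hC, h⟩ := few_rad R hR (δ / (A * (m + 2))) (by positivity)
  refine ⟨(2 * C) ^ (m + 2), by positivity, fun X hX E hE => ?_⟩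
  have hX0 : 0 < X := by linarith
  have hXA : 1 ≤ X ^ A := Real.one_le_rpow hX hA0.le
  set N : ℕ := ⌊X ^ A⌋₊ with hN
  have hN1 : 1 ≤ N := Nat.le_floor (by simpa using hXA)
  have hNle : (N : ℝ) ≤ X ^ A := Nat.floor_le (by linarith)
  set S : Finset ℕ := (Icc 1 N).filter fun u => (rad u : ℝ) ≤ R with hS
  set S' : Finset ℤ := (S.image fun u : ℕ => (u : ℤ)) ∪ (S.image fun u : ℕ => -(u : ℤ)) with hS'
  have hcS' : S'.card ≤ 2 * S.card := by
    refine (card_union_le _ _).trans ?_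
    have h1 : (S.image fun u : ℕ => (u : ℤ)).card ≤ S.card := card_image_le
    have h2 : (S.image fun u : ℕ => -(u : ℤ)).card ≤ S.card := card_image_le
    omega
  have hsub : E ⊆ Fintype.piFinset fun _ : Fin (m + 2) => S' := by
    intro z hz
    obtain ⟨⟨g1, g2, g3, g4, g5⟩, g6⟩ := hE z hz
    rw [Fintype.mem_piFinset]
    intro i
    have h1 : (z i).natAbs ∈ S := by
      rw [hS, mem_filter, mem_Icc]
      refine ⟨⟨Nat.one_le_iff_ne_zero.2 (Int.natAbs_ne_zero.2 (g3 i)), Nat.le_floor (g4 i)⟩, ?_⟩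
      refine le_trans ?_ g6
      have hne : ∏ i, (z i).natAbs ≠ 0 := prod_ne_zero_iff.2 fun i _ => Int.natAbs_ne_zero.2 (g3 i)
      have h2 : rad (z i).natAbs ∣ rad (∏ i, (z i).natAbs) := by
        unfold rad
        exact prod_dvd_prod_of_subset _ _ _
          (Nat.primeFactors_mono (Finset.dvd_prod_of_mem _ (mem_univ i)) hne)
      exact_mod_cast Nat.le_of_dvd (rad_pos' _) h2
    rw [hS', mem_union, mem_image, mem_image]
    rcases Int.natAbs_eq (z i) with h2 | h2
    · exact Or.inl ⟨(z i).natAbs, h1, h2.symm⟩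
    · exact Or.inr ⟨(z i).natAbs, h1, h2.symm⟩
  have h1 : E.card ≤ (2 * S.card) ^ (m + 2) := by
    refine (card_le_card hsub).trans ?_
    rw [Fintype.card_piFinset]
    simp only [prod_const, card_univ, Fintype.card_fin]
    exact Nat.pow_le_pow_left hcS' _
  have h2 : (S.card : ℝ) ≤ C * (N : ℝ) ^ (δ / (A * (m + 2))) := h N hN1
  have h3 : (N : ℝ) ^ (δ / (A * (m + 2))) ≤ X ^ (δ / (m + 2)) := by
    calc (N : ℝ) ^ (δ / (A * (m + 2))) ≤ (X ^ A) ^ (δ / (A * (m + 2))) :=
          Real.rpow_le_rpow (Nat.cast_nonneg _) hNle (by positivity)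
      _ = X ^ (δ / (m + 2)) := by
          rw [← Real.rpow_mul hX0.le]
          congr 1
          field_simp
  calc (E.card : ℝ) ≤ (2 * S.card : ℝ) ^ (m + 2) := by exact_mod_cast h1
    _ ≤ (2 * (C * X ^ (δ / (m + 2)))) ^ (m + 2) := by gcongr; exact h2.trans (by gcongr)
    _ = (2 * C) ^ (m + 2) * (X ^ (δ / (m + 2))) ^ (m + 2) := by rw [← mul_pow]; ring
    _ = (2 * C) ^ (m + 2) * X ^ δ := by
        congr 1
        rw [← Real.rpow_natCast, ← Real.rpow_mul hX0.le]
        congr 1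
        push_cast
        field_simp

/-- elimination of the last coordinate -/
theorem elim (m : ℕ) (F : MvPolynomial (Fin (m + 2)) ℚ) (w : Fin (m + 2) → ℚ)
    (hw : ∑ i, w i = 0) (hF : MvPolynomial.eval w F ≠ 0) :
    ∃ G : MvPolynomial (Fin (m + 1)) ℚ, G ≠ 0 ∧ ∀ z : Fin (m + 2) → ℚ, ∑ i, z i = 0 →
      MvPolynomial.eval (fun j : Fin (m + 1) => z j.castSucc) G = MvPolynomial.eval z F := by
  set f : Fin (m + 2) → MvPolynomial (Fin (m + 1)) ℚ :=
    Fin.snoc (α := fun _ => MvPolynomial (Fin (m + 1)) ℚ) (fun j => MvPolynomial.X j)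
      (-∑ j, MvPolynomial.X j) with hf
  have key : ∀ z : Fin (m + 2) → ℚ, ∑ i, z i = 0 →
      MvPolynomial.eval (fun j : Fin (m + 1) => z j.castSucc) (MvPolynomial.bind₁ f F) =
        MvPolynomial.eval z F := by
    intro z hz
    have h1 := MvPolynomial.eval₂Hom_bind₁ (RingHom.id ℚ)
      (fun j : Fin (m + 1) => z j.castSucc) f F
    have h2 : (fun i => (MvPolynomial.eval₂Hom (RingHom.id ℚ)
        (fun j : Fin (m + 1) => z j.castSucc)) (f i)) = z := by
      funext i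
      refine Fin.lastCases ?_ (fun j => ?_) i
      · rw [hf]
        rw [Fin.snoc_last, map_neg, map_sum]
        simp only [MvPolynomial.eval₂Hom_X']
        rw [Fin.sum_univ_castSucc] at hz
        linarith
      · rw [hf]
        rw [Fin.snoc_castSucc]
        simp only [MvPolynomial.eval₂Hom_X']
    rw [h2] at h1
    exact h1
  refine ⟨MvPolynomial.bind₁ f F, ?_, key⟩
  intro h0
  apply hF
  rw [← key w hw, h0, map_zero]

/-- many tuples off a hypersurface, of the right order of magnitude -/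
theorem low_all (m : ℕ) (hm : 1 ≤ m) : ∃ c : ℝ, 0 < c ∧
    ∀ G : MvPolynomial (Fin (m + 1)) ℚ, G ≠ 0 → ∃ X₀ : ℝ,
    ∀ X : ℝ, X₀ ≤ X → ∃ T : Finset (Fin (m + 2) → ℤ),
      (∀ z ∈ T, univ.gcd z = 1 ∧ ∑ i, z i = 0 ∧ (∀ j : Fin (m + 1), 0 < z j.castSucc) ∧
        ht z ≤ 1 / (m + 2) * Real.log X ∧ ∑ i, N1 ∅ (z i) ≤ Real.log X ∧
        MvPolynomial.eval (fun j : Fin (m + 1) => (z j.castSucc : ℚ)) G ≠ 0) ∧
      c * X ^ (((m : ℝ) + 1) / (m + 2)) ≤ (T.card : ℝ) := by
  classical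
  obtain ⟨c, hc, X₀, hX₀⟩ := tup_lower m hm ∅
  refine ⟨c / 2, by positivity, fun G hG => ?_⟩
  obtain ⟨D, hD⟩ : ∃ D : ℝ, D = (G.totalDegree : ℝ) := ⟨_, rfl⟩
  have hD0 : 0 ≤ D := by rw [hD]; positivity
  have hm2 : (0 : ℝ) < (m : ℝ) + 2 := by positivity
  refine ⟨max (max X₀ 1) ((2 * D / c) ^ ((m : ℝ) + 2)), fun X hX => ?_⟩
  have hXX : X₀ ≤ X := ((le_max_left _ _).trans (le_max_left _ _)).trans hX
  have hX1 : 1 ≤ X := ((le_max_right _ _).trans (le_max_left _ _)).trans hX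
  have hX2 : (2 * D / c) ^ ((m : ℝ) + 2) ≤ X := (le_max_right _ _).trans hX
  have hX0 : 0 < X := by linarith
  obtain ⟨T, hT, hcard⟩ := hX₀ X hXX
  set T₀ := T.filter fun z =>
    MvPolynomial.eval (fun j : Fin (m + 1) => (z j.castSucc : ℚ)) G = 0 with hT₀
  set T₁ := T.filter fun z =>
    ¬ MvPolynomial.eval (fun j : Fin (m + 1) => (z j.castSucc : ℚ)) G = 0 with hT₁
  have hcs : T.card = T₀.card + T₁.card := (Finset.card_filter_add_card_filter_not _).symm
  refine ⟨T₁, fun z hz => ?_, ?_⟩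
  · obtain ⟨z1, z2⟩ := mem_filter.1 hz
    obtain ⟨g1, g2, g3, g4, g5⟩ := hT z z1
    exact ⟨g1, g2, g3, g4, g5, z2⟩
  · set W : ℝ := X ^ (1 / ((m : ℝ) + 2)) with hW
    have hW1 : 1 ≤ W := Real.one_le_rpow hX1 (by positivity)
    set N : ℕ := ⌊W⌋₊ with hN
    have hN1 : 1 ≤ N := Nat.le_floor (by simpa using hW1)
    have hNW : (N : ℝ) ≤ W := Nat.floor_le (by linarith)
    set S : Finset ℚ := (Icc 1 N).image fun w : ℕ => (w : ℚ) with hS
    have hSc : S.card = N := by
      rw [hS, card_image_of_injective, Nat.card_Icc]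
      · omega
      · intro a b hab
        dsimp only at hab
        exact_mod_cast hab
    have hsz := MvPolynomial.schwartz_zippel_totalDegree hG S
    rw [hSc, div_le_iff₀ (by exact_mod_cast pow_pos (by omega : 0 < N) _)] at hsz
    have h3 : T₀.card ≤ #{x ∈ Fintype.piFinset (fun _ : Fin (m + 1) => S) |
        MvPolynomial.eval x G = 0} := by
      refine Finset.card_le_card_of_injOn (fun z => fun j : Fin (m + 1) => (z j.castSucc : ℚ)) ?_ ?_
      · intro z hz
        obtain ⟨z1, z2⟩ := mem_filter.1 hz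
        obtain ⟨g1, g2, g3, g4, g5⟩ := hT z z1
        rw [Finset.mem_coe, Finset.mem_filter, Fintype.mem_piFinset]
        refine ⟨fun j => ?_, z2⟩
        have h4 := sup_le_of_ht g1 hX0 g4
        have h5 : (z j.castSucc).natAbs ≤ (univ.sup fun j => (z j).natAbs : ℕ) :=
          le_sup (f := fun j => (z j).natAbs) (mem_univ _)
        have h6 : (z j.castSucc).natAbs ≤ N := by
          apply Nat.le_floor
          exact le_trans (by exact_mod_cast h5) h4
        rw [hS, mem_image]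
        refine ⟨(z j.castSucc).natAbs, ?_, ?_⟩
        · rw [mem_Icc]
          exact ⟨Nat.one_le_iff_ne_zero.2 (Int.natAbs_ne_zero.2 (g3 j).ne'), h6⟩
        · dsimp only
          have h7 : (((z j.castSucc).natAbs : ℕ) : ℤ) = z j.castSucc :=
            Int.natAbs_of_nonneg (g3 j).le
          calc (((z j.castSucc).natAbs : ℕ) : ℚ) = ((((z j.castSucc).natAbs : ℕ) : ℤ) : ℚ) :=
                (Int.cast_natCast _).symm
            _ = _ := by rw [h7]
      · intro z hz z' hz' h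
        have g1 := (hT z (mem_filter.1 hz).1).2.1
        have g1' := (hT z' (mem_filter.1 hz').1).2.1
        have h' : ∀ i : Fin (m + 1), z i.castSucc = z' i.castSucc := fun i => by
          have := congrFun h i
          dsimp only at this
          exact_mod_cast this
        rw [Fin.sum_univ_castSucc] at g1 g1'
        funext i
        refine Fin.lastCases ?_ (fun i => ?_) i
        · have h5 : ∑ i : Fin (m + 1), z i.castSucc = ∑ i : Fin (m + 1), z' i.castSucc :=
            Finset.sum_congr rfl fun i _ => h' i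
          linarith
        · exact h' i
    have h4 : (T₀.card : ℝ) ≤ D * W ^ m := by
      have h5 : ((T₀.card : ℕ) : ℚ≥0) ≤ (G.totalDegree / N : ℚ≥0) * (N : ℚ≥0) ^ (m + 1) :=
        le_trans (by exact_mod_cast h3) hsz
      have h6 : (G.totalDegree / N : ℚ≥0) * (N : ℚ≥0) ^ (m + 1) = G.totalDegree * (N : ℚ≥0) ^ m := by
        have : (N : ℚ≥0) ≠ 0 := by
          have : (0 : ℚ≥0) < N := by exact_mod_cast hN1
          exact this.ne'
        rw [pow_succ]
        field_simp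
      rw [h6] at h5
      have h7 : T₀.card ≤ G.totalDegree * N ^ m := by exact_mod_cast h5
      calc (T₀.card : ℝ) ≤ (G.totalDegree : ℝ) * (N : ℝ) ^ m := by exact_mod_cast h7
        _ ≤ D * W ^ m := by rw [hD]; gcongr
    have e1 : X ^ (((m : ℝ) + 1) / (m + 2)) = W * W ^ m := by
      rw [hW, ← pow_succ', ← Real.rpow_natCast, ← Real.rpow_mul hX0.le]
      congr 1
      push_cast
      field_simp
    have h8 : D ≤ c / 2 * W := by
      have h9 : 2 * D / c ≤ W := by
        calc 2 * D / c = ((2 * D / c) ^ ((m : ℝ) + 2)) ^ (1 / ((m : ℝ) + 2)) := by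
              rw [← Real.rpow_mul (by positivity)]
              have : ((m : ℝ) + 2) * (1 / ((m : ℝ) + 2)) = 1 := by field_simp
              rw [this, Real.rpow_one]
          _ ≤ W := Real.rpow_le_rpow (by positivity) hX2 (by positivity)
      rw [div_le_iff₀ hc] at h9
      linarith
    have h10 : (T₀.card : ℝ) ≤ c / 2 * X ^ (((m : ℝ) + 1) / (m + 2)) := by
      rw [e1]
      calc (T₀.card : ℝ) ≤ D * W ^ m := h4
        _ ≤ (c / 2 * W) * W ^ m := by gcongr
        _ = _ := by ring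
    have h11 : (T.card : ℝ) = T₀.card + T₁.card := by exact_mod_cast hcs
    linarith

end Pool.Agent.Y594.NT3
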